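import Pool.Agent.Helper37.SY.Spec
import Pool.Agent.Helper77.LM.Second
import Pool.Agent.Helper77.LM.Facet

/-!
# Part AVG of the swarm SY: the average of `F` over a facet
-/

set_option autoImplicit false

noncomputable section

open MeasureTheory Set Filter Topology
open scoped ENNReal

namespace Pool.Agent.Helper29.SY.AVG

open Helper37.SY Pool.Agent.Helper77.LM

/-- the smaller simplex `r⁻¹ Δ` -/
def sD (n : ℕ) (r : ℝ) : Set (Fin n → ℝ) := {x | r • x ∈ Dl n}

lemma isClosed_sD (n : ℕ) (r : ℝ) : IsClosed (sD n r) :=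
  isClosed_Dl.preimage (continuous_const_smul r)

lemma sD_sub {n : ℕ} {r : ℝ} (hr : 1 ≤ r) : sD n r ⊆ Dl n := by
  intro x hx
  have h0 : 0 < r := by linarith
  have h1 := smul_mem_Dl (s := r⁻¹) hx (by positivity) (inv_le_one_of_one_le₀ hr)
  rwa [smul_smul, inv_mul_cancel₀ h0.ne', one_smul] at h1

lemma smul_sD {m : ℕ} {l : Fin (m + 1) → ℝ} (hl : l ∈ stdSimplex ℝ (Fin (m + 1))) {s r : ℝ}
    (hs : 0 < s) (hr : 1 ≤ r) : s • l ∈ Dl (m + 1) \ sD (m + 1) r ↔ s ∈ Ioc r⁻¹ 1 := by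
  have h0 : 0 < r := by linarith
  have h1 : s • l ∈ sD (m + 1) r ↔ s ≤ r⁻¹ := by
    simp only [sD, Set.mem_ofPred_eq, smul_smul]
    constructor
    · intro h
      by_contra hc
      refine smul_std_not_mem hl (s := r * s) ?_ h
      rw [not_le] at hc
      have := mul_lt_mul_of_pos_left hc h0
      rwa [mul_inv_cancel₀ h0.ne'] at this
    · intro h
      refine smul_std_mem hl (by positivity) ?_
      have := mul_le_mul_of_nonneg_left h h0.le
      rwa [mul_inv_cancel₀ h0.ne'] at this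
  have h2 : s • l ∈ Dl (m + 1) ↔ s ≤ 1 := by
    constructor
    · intro h
      by_contra hc
      exact smul_std_not_mem hl (not_le.1 hc) h
    · intro h
      exact smul_std_mem hl hs.le h
  rw [Set.mem_sdiff, h1, h2, Set.mem_Ioc, not_le]
  tauto

lemma F0_le {q : ℝ} {n : ℕ} (hc : ConvexOn ℝ univ (F q : (Fin n → ℝ) → ℝ))
    (hs : ∀ (σ : Equiv.Perm (Fin (n + 1))) (x : Fin n → ℝ), F q (Tl σ x) = F q x)
    (x : Fin n → ℝ) : F q (0 : Fin n → ℝ) ≤ F q x := by
  have hn : (0 : ℝ) < (n : ℝ) + 1 := by positivity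
  have h := hc.map_sum_le (t := Finset.univ) (w := fun _ : Fin (n + 1) => (1 : ℝ) / (n + 1))
    (p := fun k => Tl (Equiv.addRight k) x) (fun _ _ => by positivity)
    (by
      rw [Finset.sum_const, Finset.card_univ, Fintype.card_fin, nsmul_eq_mul]
      push_cast
      field_simp) (fun _ _ => mem_univ _)
  simp only [hs] at h
  rw [← Finset.smul_sum, sum_rot, smul_zero, Finset.sum_const, Finset.card_univ,
    Fintype.card_fin, nsmul_eq_mul, smul_eq_mul] at h
  push_cast at h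
  have e : ((n : ℝ) + 1) * (1 / ((n : ℝ) + 1) * F q x) = F q x := by field_simp
  rwa [e] at h

lemma F_ray {q : ℝ} {n : ℕ} (hc : ConvexOn ℝ univ (F q : (Fin n → ℝ) → ℝ))
    (hs : ∀ (σ : Equiv.Perm (Fin (n + 1))) (x : Fin n → ℝ), F q (Tl σ x) = F q x)
    (x : Fin n → ℝ) {s : ℝ} (h0 : 0 ≤ s) (h1 : s ≤ 1) : F q (s • x) ≤ F q x := by
  have h := hc.2 (mem_univ x) (mem_univ (0 : Fin n → ℝ)) h0 (sub_nonneg.2 h1) (by ring)
  rw [smul_zero, add_zero, smul_eq_mul, smul_eq_mul] at h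
  have h2 := mul_le_mul_of_nonneg_left (F0_le hc hs x) (sub_nonneg.2 h1)
  nlinarith

lemma upper {q : ℝ} (m : ℕ) (hc : ConvexOn ℝ univ (F q : (Fin (m + 1) → ℝ) → ℝ))
    (hcont : Continuous (F q : (Fin (m + 1) → ℝ) → ℝ)) (h0 : ∀ x : Fin (m + 1) → ℝ, 0 ≤ F q x)
    (hs : ∀ (σ : Equiv.Perm (Fin (m + 1 + 1))) (x : Fin (m + 1) → ℝ), F q (Tl σ x) = F q x)
    {r : ℝ} (hr : 1 ≤ r) :
    ∫ x in Dl (m + 1) \ sD (m + 1) r, F q x ≤
      ((m : ℝ) + 2) / (m + 1) * ((1 - r⁻¹) * A m (F q)) := by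
  have hr0 : 0 < r := by linarith
  have hri : r⁻¹ ≤ 1 := inv_le_one_of_one_le₀ hr
  have hA : 0 ≤ A m (F q) := integral_nonneg fun x => h0 _
  have hmS : MeasurableSet (Dl (m + 1) \ sD (m + 1) r) :=
    isClosed_Dl.measurableSet.diff (isClosed_sD _ r).measurableSet
  rw [integral_eq_lintegral_of_nonneg_ae (Filter.Eventually.of_forall h0)
    hcont.measurable.aestronglyMeasurable]
  have hB : 0 ≤ ((m : ℝ) + 2) / (m + 1) * ((1 - r⁻¹) * A m (F q)) := by
    have : 0 ≤ 1 - r⁻¹ := by linarith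
    positivity
  refine ENNReal.toReal_le_of_le_ofReal hB ?_
  set f : (Fin (m + 1) → ℝ) → ℝ≥0∞ :=
    (Dl (m + 1) \ sD (m + 1) r).indicator (fun x => ENNReal.ofReal (F q x)) with hf
  have hfm : Measurable f := hcont.measurable.ennreal_ofReal.indicator hmS
  have hsym : ∀ (σ : Equiv.Perm (Fin (m + 2))) (x : Fin (m + 1) → ℝ), f (Tl σ x) = f x := by
    intro σ x
    have hiff : Tl σ x ∈ Dl (m + 1) \ sD (m + 1) r ↔ x ∈ Dl (m + 1) \ sD (m + 1) r := by
      simp only [sD, Set.mem_sdiff, Set.mem_ofPred_eq, ← map_smul, Tl_mem]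
    by_cases hx : x ∈ Dl (m + 1) \ sD (m + 1) r
    · rw [hf, Set.indicator_of_mem (hiff.2 hx), Set.indicator_of_mem hx, hs]
    · rw [hf, Set.indicator_of_notMem (fun h => hx (hiff.1 h)), Set.indicator_of_notMem hx]
  rw [← lintegral_indicator hmS, ← hf, lint_cone_radial f hfm]
  simp only [hsym, Finset.sum_const, Finset.card_univ, Fintype.card_fin, nsmul_eq_mul]
  rw [← mul_assoc, ENNReal.ofReal_mul (by positivity)]
  refine mul_le_mul' (le_of_eq ?_) ?_
  · rw [div_eq_mul_one_div ((m : ℝ) + 2), ENNReal.ofReal_mul (by positivity)]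
    congr 1
    have : ((m : ℝ) + 2) = ((m + 1 + 1 : ℕ) : ℝ) := by push_cast; ring
    rw [this, ENNReal.ofReal_natCast]
  · rw [← lintegral_indicator measurableSet_Ioi]
    have hcb : Continuous fun w : Fin m → ℝ => F q (bary w) := hcont.comp continuous_bary
    have hle : ∀ s : ℝ, (Ioi (0 : ℝ)).indicator (fun s => ENNReal.ofReal (s ^ m) *
        ∫⁻ w in Dl m, f (s • bary w)) s
        ≤ (Ioc (r⁻¹ : ℝ) 1).indicator (fun _ => ENNReal.ofReal (A m (F q))) s := by
      intro s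
      by_cases hs0 : s ∈ Ioi (0 : ℝ)
      · rw [Set.indicator_of_mem hs0]
        by_cases hs1 : s ∈ Ioc (r⁻¹ : ℝ) 1
        · rw [Set.indicator_of_mem hs1]
          have h1 : ENNReal.ofReal (s ^ m) ≤ 1 := by
            rw [ENNReal.ofReal_le_one]
            exact pow_le_one₀ (le_of_lt hs0) hs1.2
          refine (mul_le_mul' h1 le_rfl).trans ?_
          rw [one_mul, A, ofReal_integral_eq_lintegral_ofReal
            (hcb.continuousOn.integrableOn_compact isCompact_Dl)
            (Filter.Eventually.of_forall fun w => h0 _)]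
          refine setLIntegral_mono' isClosed_Dl.measurableSet fun w hw => ?_
          have hl := bary_mem_std hw
          rw [hf, Set.indicator_of_mem ((smul_sD hl hs0 hr).2 hs1)]
          exact ENNReal.ofReal_le_ofReal (F_ray hc hs _ (le_of_lt hs0) hs1.2)
        · rw [Set.indicator_of_notMem hs1]
          have : ∫⁻ w in Dl m, f (s • bary w) = 0 := by
            rw [setLIntegral_congr_fun (g := fun _ => 0) isClosed_Dl.measurableSet]
            · simp
            · intro w hw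
              simp only [hf]
              rw [Set.indicator_of_notMem
                (fun h => hs1 ((smul_sD (bary_mem_std hw) hs0 hr).1 h))]
          rw [this, mul_zero]
      · rw [Set.indicator_of_notMem hs0]; exact zero_le
    refine (lintegral_mono hle).trans (le_of_eq ?_)
    rw [lintegral_indicator measurableSet_Ioc, setLIntegral_const, Real.volume_Ioc,
      ← ENNReal.ofReal_mul hA]
    congr 1
    ring

theorem main (hFCV : S_FCV) (hHOM : S_HOM) (hTAY : S_TAY) : S_AVG := by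
  intro m q hq
  obtain ⟨hc, hcont, h0, hs, -, hG⟩ := hFCV (m + 1) q hq
  obtain ⟨C, -, hT⟩ := hTAY (m + 1) q hq
  set G := Gq q (Dl (m + 1)) with hGdef
  have hA : 0 ≤ A m (F q) := integral_nonneg fun x => h0 _
  have hm : (0 : ℝ) ≤ m := Nat.cast_nonneg m
  set a : ℝ := ((m : ℝ) + 1) * (m + 2 + q) with ha
  set B : ℝ := ((m : ℝ) + 2) ^ 2 / (m + 1) * A m (F q) with hB
  have hB0 : 0 ≤ B := by positivity
  have ha1 : 1 ≤ a := by nlinarith
  have key : ∀ ε : ℝ, 0 < ε → a * G ≤ B * (1 + a * ε) := by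
    intro ε hε
    have hr : (1 : ℝ) ≤ 1 + ε := by linarith
    have hr0 : (0 : ℝ) < 1 + ε := by linarith
    have hdet : |((1 + ε) • (1 : Matrix (Fin (m + 1)) (Fin (m + 1)) ℝ)).det| =
        (1 + ε) ^ (m + 1) := by
      rw [Matrix.det_smul, Matrix.det_one, mul_one, Fintype.card_fin, abs_of_pos (by positivity)]
    have hne : ((1 + ε) • (1 : Matrix (Fin (m + 1)) (Fin (m + 1)) ℝ)).det ≠ 0 := by
      intro h
      rw [h, abs_zero] at hdet
      have : (0 : ℝ) < (1 + ε) ^ (m + 1) := by positivity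
      linarith
    have h1 := hHOM (m + 1) q hq ((1 + ε) • (1 : Matrix (Fin (m + 1)) (Fin (m + 1)) ℝ)) 0
      (Dl (m + 1)) hne isClosed_Dl.measurableSet
    have hset : {x | ((1 + ε) • (1 : Matrix (Fin (m + 1)) (Fin (m + 1)) ℝ)).mulVec x + 0 ∈
        Dl (m + 1)} = sD (m + 1) (1 + ε) := by
      ext x
      simp only [sD, Set.mem_ofPred_eq, Matrix.smul_mulVec, Matrix.one_mulVec, add_zero]
    rw [hset, hdet] at h1
    have hT1 : 1 + a * ε ≤ ((1 + ε) ^ (m + 1)) ^ ((((m + 1 : ℕ) : ℝ)) + 1 + q) := by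
      rw [← Real.rpow_natCast, ← Real.rpow_mul hr0.le]
      have e : ((m + 1 : ℕ) : ℝ) * (((m + 1 : ℕ) : ℝ) + 1 + q) = a := by
        rw [ha]; push_cast; ring
      rw [e]
      exact one_add_mul_self_le_rpow_one_add (by linarith) ha1
    have hGs : 0 ≤ Gq q (sD (m + 1) (1 + ε)) := by
      by_contra hcon
      rw [not_le] at hcon
      have hTp : 0 < ((1 + ε) ^ (m + 1)) ^ ((((m + 1 : ℕ) : ℝ)) + 1 + q) :=
        lt_of_lt_of_le (by positivity) hT1
      have := mul_neg_of_pos_of_neg hTp hcon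
      linarith
    have h2 : (1 + a * ε) * Gq q (sD (m + 1) (1 + ε)) ≤ G := by
      have h1' := mul_le_mul_of_nonneg_right hT1 hGs
      have h1'' : ((1 + ε) ^ (m + 1)) ^ ((((m + 1 : ℕ) : ℝ)) + 1 + q) *
          Gq q (sD (m + 1) (1 + ε)) = G := h1
      rwa [h1''] at h1'
    have h3 := (hT (sD (m + 1) (1 + ε)) (isClosed_sD _ _).measurableSet (sD_sub hr)).1
    have h4 := upper m hc hcont h0 hs hr
    have h5 : 1 - (1 + ε)⁻¹ ≤ ε := by
      have : 1 - (1 + ε)⁻¹ = ε / (1 + ε) := by field_simp; ring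
      rw [this]
      exact div_le_self hε.le hr
    have h6 : ∫ x in Dl (m + 1) \ sD (m + 1) (1 + ε), F q x ≤
        ((m : ℝ) + 2) / (m + 1) * (ε * A m (F q)) := by
      refine h4.trans ?_
      have h7 := mul_le_mul_of_nonneg_right h5 hA
      exact mul_le_mul_of_nonneg_left h7 (by positivity)
    have h7 : G - ((m : ℝ) + 2) * (((m : ℝ) + 2) / (m + 1) * (ε * A m (F q))) ≤
        Gq q (sD (m + 1) (1 + ε)) := by
      refine le_trans ?_ h3
      have e : ((m + 1 : ℕ) : ℝ) + 1 = (m : ℝ) + 2 := by push_cast; ring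
      rw [e]
      have := mul_le_mul_of_nonneg_left h6 (by positivity : (0 : ℝ) ≤ (m : ℝ) + 2)
      linarith
    have h8 : ((m : ℝ) + 2) * (((m : ℝ) + 2) / (m + 1) * (ε * A m (F q))) = ε * B := by
      rw [hB]; ring
    rw [h8] at h7
    have h9 : (1 + a * ε) * (G - ε * B) ≤ G :=
      (mul_le_mul_of_nonneg_left h7 (by positivity)).trans h2
    have h10 : ε * (a * G) ≤ ε * (B * (1 + a * ε)) := by nlinarith
    exact le_of_mul_le_mul_left h10 hε
  have hfin : a * G ≤ B := by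
    refine le_of_forall_pos_le_add fun δ hδ => ?_
    have h1 := key (δ / (B * a + 1)) (by positivity)
    have h2 : B * (a * (δ / (B * a + 1))) ≤ δ := by
      have : B * (a * (δ / (B * a + 1))) = δ * (B * a / (B * a + 1)) := by ring
      rw [this]
      have h3 : B * a / (B * a + 1) ≤ 1 := by
        rw [div_le_one (by positivity)]
        linarith
      calc δ * (B * a / (B * a + 1)) ≤ δ * 1 := mul_le_mul_of_nonneg_left h3 hδ.le
        _ = δ := mul_one δ
    linarith [h1, h2, mul_add B 1 (a * (δ / (B * a + 1)))]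
  have hV := V_pos m
  have e : (1 + q / ((m : ℝ) + 2)) * (G / V (m + 1)) =
      (((m : ℝ) + 1) * (a * G) / ((m : ℝ) + 2) ^ 2) / V m := by
    rw [V_step, ha]
    field_simp
  rw [e]
  refine div_le_div_of_nonneg_right ?_ hV.le
  rw [div_le_iff₀ (by positivity)]
  calc ((m : ℝ) + 1) * (a * G) ≤ ((m : ℝ) + 1) * B :=
        mul_le_mul_of_nonneg_left hfin (by positivity)
    _ = A m (F q) * ((m : ℝ) + 2) ^ 2 := by rw [hB]; field_simp

end Pool.Agent.Helper29.SY.AVG

end
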